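import Mathlib

/-!
Generic lifting along a polynomial map: the image of `{w ≠ 0}` under `θ : ℂ^τ → ℂ^σ` contains the
set of all points of the closure of the image where some polynomial `b`, not vanishing identically
on the image, does not vanish.
-/

namespace Pool.Agent.H38.Gen

open MvPolynomial

theorem generic_lift {σ τ : Type} [Finite σ] [Finite τ] (θ : σ → MvPolynomial τ ℂ)
    (w : MvPolynomial τ ℂ) (hw : w ≠ 0) :
    ∃ b : MvPolynomial σ ℂ, aeval θ b ≠ 0 ∧
      ∀ y : σ → ℂ, (∀ q : MvPolynomial σ ℂ, aeval θ q = 0 → eval y q = 0) → eval y b ≠ 0 →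
        ∃ t : τ → ℂ, eval t w ≠ 0 ∧ ∀ s, eval t (θ s) = y s := by
  classical
  set φ : MvPolynomial σ ℂ →+* MvPolynomial τ ℂ := (aeval θ : MvPolynomial σ ℂ →ₐ[ℂ] _).toRingHom
    with hφ
  have hφa : ∀ q, φ q = aeval θ q := fun q => rfl
  have hft : φ.FiniteType := by
    refine RingHom.FiniteType.of_comp_finiteType (f := algebraMap ℂ (MvPolynomial σ ℂ)) ?_
    have : φ.comp (algebraMap ℂ (MvPolynomial σ ℂ)) = algebraMap ℂ (MvPolynomial τ ℂ) := by
      ext x
      simp [hφ]
    rw [this, RingHom.finiteType_algebraMap]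
    infer_instance
  have hfp : φ.FinitePresentation := RingHom.FinitePresentation.of_finiteType.1 hft
  have hcon : Topology.IsConstructible
      (PrimeSpectrum.comap φ '' (PrimeSpectrum.basicOpen w : Set (PrimeSpectrum _))) :=
    PrimeSpectrum.isConstructible_comap_image hfp PrimeSpectrum.isConstructible_basicOpen
  obtain ⟨S, hS⟩ := PrimeSpectrum.exists_constructibleSetData_iff.2 hcon
  -- the generic point
  let η : PrimeSpectrum (MvPolynomial τ ℂ) := ⟨⊥, Ideal.isPrime_bot⟩
  have hη : η ∈ (PrimeSpectrum.basicOpen w : Set (PrimeSpectrum (MvPolynomial τ ℂ))) := by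
    simp [η, hw]
  have hmem : PrimeSpectrum.comap φ η ∈ S.toSet := by
    rw [hS]
    exact ⟨η, hη, rfl⟩
  simp only [PrimeSpectrum.ConstructibleSetData.toSet, Set.mem_iUnion] at hmem
  obtain ⟨Z, hCS, hC⟩ := hmem
  have hC1 : ∀ i, φ (Z.g i) = 0 := by
    intro i
    have := hC.1 (Set.mem_range_self i)
    simpa [η] using this
  have hC2 : φ Z.f ≠ 0 := by
    intro h
    apply hC.2
    simp only [PrimeSpectrum.mem_zeroLocus, Set.singleton_subset_iff]
    simpa [η] using h
  refine ⟨Z.f, hC2, fun y hy hb => ?_⟩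
  -- the point `y`
  let my : PrimeSpectrum (MvPolynomial σ ℂ) := ⟨vanishingIdeal ℂ {y}, inferInstance⟩
  have hmy : my ∈ S.toSet := by
    simp only [PrimeSpectrum.ConstructibleSetData.toSet, Set.mem_iUnion]
    refine ⟨Z, hCS, ?_, ?_⟩
    · rintro _ ⟨i, rfl⟩
      change Z.g i ∈ vanishingIdeal ℂ {y}
      rw [mem_vanishingIdeal_singleton_iff]
      exact hy _ (hC1 i)
    · intro h
      simp only [PrimeSpectrum.mem_zeroLocus, Set.singleton_subset_iff] at h
      have h' : Z.f ∈ vanishingIdeal ℂ {y} := h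
      rw [mem_vanishingIdeal_singleton_iff] at h'
      exact hb h'
  rw [hS] at hmy
  obtain ⟨Q, hQw, hQ⟩ := hmy
  have hQw' : w ∉ Q.asIdeal := hQw
  -- a maximal ideal over `Q` avoiding `w`
  obtain ⟨n, hn, hQn, hwn⟩ : ∃ n : Ideal (MvPolynomial τ ℂ), n.IsMaximal ∧ Q.asIdeal ≤ n ∧ w ∉ n := by
    by_contra hcon
    push Not at hcon
    have hJ : Q.asIdeal.jacobson = Q.asIdeal :=
      IsJacobsonRing.out inferInstance Q.isPrime.isRadical
    apply hQw'
    rw [← hJ, Ideal.jacobson, Ideal.mem_sInf]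
    intro I hI
    exact hcon I hI.2 hI.1
  obtain ⟨t, rfl⟩ := isMaximal_iff_eq_vanishingIdeal_singleton.1 hn
  refine ⟨t, ?_, fun s => ?_⟩
  · intro h
    apply hwn
    rw [mem_vanishingIdeal_singleton_iff]
    exact h
  · have h1 : (X s - C (y s) : MvPolynomial σ ℂ) ∈ (PrimeSpectrum.comap φ Q).asIdeal := by
      rw [hQ]
      change (X s - C (y s) : MvPolynomial σ ℂ) ∈ vanishingIdeal ℂ {y}
      rw [mem_vanishingIdeal_singleton_iff]
      simp
    have h2 : φ (X s - C (y s)) ∈ Q.asIdeal := h1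
    have h3 := hQn h2
    rw [mem_vanishingIdeal_singleton_iff, hφa] at h3
    simp only [map_sub, aeval_X, algHom_C] at h3
    simpa [sub_eq_zero] using h3

end Pool.Agent.H38.Gen
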